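import Pool.Agent.X118.EL.Stm

/-! Decomposition for EL_ABS. -/

set_option autoImplicit false

namespace Pool.Agent.X118.EL

open Set

/-- bounded Lipschitz functions (same as `Pool.Agent.X171.EL.BL`) -/
def BLx {S : Type} [MetricSpace S] (g : S → ℝ) (a L : ℝ) : Prop :=
  (∀ u, |g u| ≤ a) ∧ ∀ u v, |g u - g v| ≤ L * dist u v

theorem BLx.mono {S : Type} [MetricSpace S] {g : S → ℝ} {a L a' L' : ℝ} (h : BLx g a L)
    (ha : a ≤ a') (hL : L ≤ L') : BLx g a' L' :=
  ⟨fun u => (h.1 u).trans ha, fun u v => (h.2 u v).trans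
    (mul_le_mul_of_nonneg_right hL dist_nonneg)⟩

theorem BLx.mul {S : Type} [MetricSpace S] {g e : S → ℝ} {a L b M : ℝ} (hg : BLx g a L)
    (hb : 0 ≤ b) (h1 : ∀ u, g u ≠ 0 → |e u| ≤ b)
    (h2 : ∀ u v, |e u - e v| ≤ M * dist u v) :
    BLx (fun u => e u * g u) (b * a) (b * L + M * a) := by
  have hle : ∀ u, |e u * g u| ≤ b * a := by
    intro u
    rw [abs_mul]
    by_cases hu : g u = 0
    · rw [hu, abs_zero, mul_zero]
      have := (abs_nonneg _).trans (hg.1 u)
      positivity
    · exact mul_le_mul (h1 u hu) (hg.1 u) (abs_nonneg _) hb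
  refine ⟨hle, ?_⟩
  have key : ∀ u v, g v ≠ 0 → |e u * g u - e v * g v| ≤ (b * L + M * a) * dist u v := by
    intro u v hv
    have e1 : e u * g u - e v * g v = (e u - e v) * g u + e v * (g u - g v) := by ring
    rw [e1]
    have h3 : |(e u - e v) * g u| ≤ (M * dist u v) * a := by
      rw [abs_mul]
      exact mul_le_mul (h2 u v) (hg.1 u) (abs_nonneg _) ((abs_nonneg _).trans (h2 u v))
    have h4 : |e v * (g u - g v)| ≤ b * (L * dist u v) := by
      rw [abs_mul]
      exact mul_le_mul (h1 v hv) (hg.2 u v) (abs_nonneg _) hb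
    calc _ ≤ |(e u - e v) * g u| + |e v * (g u - g v)| := abs_add_le _ _
      _ ≤ _ := by linarith
  intro u v
  change |e u * g u - e v * g v| ≤ _
  by_cases hv : g v = 0
  · by_cases hu : g u = 0
    · have h0 := (abs_nonneg _).trans (hg.2 u v)
      have h5 := (abs_nonneg _).trans (h2 u v)
      have h6 := (abs_nonneg _).trans (hg.1 u)
      rw [hu, hv, mul_zero, mul_zero, sub_zero, abs_zero]
      have : (b * L + M * a) * dist u v = b * (L * dist u v) + (M * dist u v) * a := by ring
      rw [this]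
      positivity
    · rw [abs_sub_comm, dist_comm]
      exact key v u hu
  · exact key u v hv

theorem equiv_of_infinite {s t : Set ℕ} (hs : s.Infinite) (ht : t.Infinite) : Nonempty (s ≃ t) := by
  classical
  have := hs.to_subtype
  have := ht.to_subtype
  have h1 : Nonempty (s ≃ ℕ) := ⟨(Nat.Subtype.denumerable s).eqv⟩
  have h2 : Nonempty (t ≃ ℕ) := ⟨(Nat.Subtype.denumerable t).eqv⟩
  obtain ⟨e1⟩ := h1
  obtain ⟨e2⟩ := h2
  exact ⟨e1.trans e2.symm⟩

/-- a permutation which preserves the colours and takes `A'` to `A` -/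
theorem exists_perm (hP : S_PERM) {K : Type} (c : ℕ → K) (j : K) {A A' : Set ℕ}
    (hA : A ⊆ {n | c n = j}) (hA' : A' ⊆ {n | c n = j}) (h1 : A.Infinite) (h1' : A'.Infinite)
    (h2 : ({n | c n = j} \ A).Infinite) (h2' : ({n | c n = j} \ A').Infinite) :
    ∃ π : Equiv.Perm ℕ, c ∘ π = c ∧ π ⁻¹' A = A' := by
  classical
  obtain ⟨π, hπ⟩ := hP (K × Bool) (fun n => (c n, decide (n ∈ A))) (fun n => (c n, decide (n ∈ A')))
    (by
      rintro ⟨i, b⟩
      by_cases hi : i = j
      · subst hi
        cases b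
        · refine (equiv_of_infinite h2 h2').map fun e => ?_
          refine ((Equiv.subtypeEquivRight fun n => ?_).trans e).trans
            (Equiv.subtypeEquivRight fun n => ?_)
          · simp
          · simp
        · refine (equiv_of_infinite h1 h1').map fun e => ?_
          refine ((Equiv.subtypeEquivRight fun n => ?_).trans e).trans
            (Equiv.subtypeEquivRight fun n => ?_)
          · simp only [Prod.mk.injEq, decide_eq_true_eq]
            exact ⟨fun h => h.2, fun h => ⟨hA h, h⟩⟩
          · simp only [Prod.mk.injEq, decide_eq_true_eq]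
            exact ⟨fun h => ⟨hA' h, h⟩, fun h => h.2⟩
      · refine ⟨Equiv.subtypeEquivRight fun n => ?_⟩
        simp only [Prod.mk.injEq]
        constructor
        · rintro ⟨h, hb⟩
          have ha : n ∉ A := fun h' => hi (by rw [← h]; exact hA h')
          have ha' : n ∉ A' := fun h' => hi (by rw [← h]; exact hA' h')
          exact ⟨h, by rw [← hb]; simp [ha, ha']⟩
        · rintro ⟨h, hb⟩
          have ha : n ∉ A := fun h' => hi (by rw [← h]; exact hA h')
          have ha' : n ∉ A' := fun h' => hi (by rw [← h]; exact hA' h')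
          exact ⟨h, by rw [← hb]; simp [ha, ha']⟩)
  refine ⟨π, ?_, ?_⟩
  · funext n
    exact congrArg Prod.fst (congrFun hπ n)
  · ext n
    have := congrArg Prod.snd (congrFun hπ n)
    simpa using this

/-- splitting all colours into three infinite parts -/
theorem exists_split {K : Type} (c : ℕ → K) (hc : ∀ j, {n | c n = j}.Infinite) :
    ∃ r : ℕ → Fin 3, ∀ j i, {n | c n = j ∧ r n = i}.Infinite := by
  classical
  refine ⟨fun n => ⟨Nat.count (fun m => c m = c n) n % 3, Nat.mod_lt _ (by norm_num)⟩, ?_⟩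
  intro j i
  have hinf : {n | c n = j}.Infinite := hc j
  have hinj : Function.Injective fun m : ℕ => Nat.nth (fun m => c m = j) (3 * m + i.1) := by
    intro a b hab
    have := Nat.nth_injective hinf hab
    omega
  refine (Set.infinite_range_of_injective hinj).mono ?_
  rintro _ ⟨m, rfl⟩
  have h1 : c (Nat.nth (fun m => c m = j) (3 * m + i.1)) = j :=
    Nat.nth_mem_of_infinite hinf _
  refine ⟨h1, ?_⟩
  apply Fin.ext
  simp only [h1]
  have h2 : Nat.count (fun m => c m = j) (Nat.nth (fun m => c m = j) (3 * m + i.1)) = 3 * m + i.1 :=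
    Nat.count_nth_of_infinite hinf _
  rw [h2]
  omega

end Pool.Agent.X118.EL
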