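import Pool.Agent.X118.EL.Main
import Pool.Agent.X255.EL.REG
import Pool.Agent.X121.EL.Perm
import Pool.Agent.X232.EL.Iter

/-! EL_ABS. -/

namespace Pool.Agent.X118.EL

theorem t_ABS : Pool.Agent.X171.EL.S_ABS :=
  abs_of Pool.Agent.X121.EL.t_PERM Pool.Agent.X255.EL.t_REG Pool.Agent.X232.EL.t_ITER

end Pool.Agent.X118.EL
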