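import Pool.Agent.X171.EL.Stm
import Pool.Agent.X118.EL.Dec

/-! Main part of EL_ABS. -/

set_option autoImplicit false

namespace Pool.Agent.X118.EL

open Set

/-- admissible functions with `k` colours -/
def Adm {S : Type} [MetricSpace S] (act : Equiv.Perm ℕ → S → S) (ψ : Set ℕ → S → ℝ) (k : ℕ)
    (g : S → ℝ) (a L : ℝ) : Prop :=
  0 ≤ a ∧ 0 ≤ L ∧ BLx g a L ∧ (∀ u, g u ≠ 0 → ψ univ u = 1) ∧
    ∃ (K : Type) (_ : Fintype K) (c : ℕ → K), Fintype.card K = k ∧
      (∀ j, {n | c n = j}.Infinite) ∧ ∀ π : Equiv.Perm ℕ, c ∘ π = c → g ∘ act π = g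

/-- bounded Lipschitz -/
def IsBL {S : Type} [MetricSpace S] (g : S → ℝ) : Prop := ∃ a L, BLx g a L

section
variable {S : Type} [MetricSpace S]

theorem IsBL.pair {g h : S → ℝ} (hg : IsBL g) (hh : IsBL h) : ∃ a L, BLx g a L ∧ BLx h a L := by
  obtain ⟨a, L, hg⟩ := hg
  obtain ⟨b, M, hh⟩ := hh
  exact ⟨max a b, max L M, hg.mono (le_max_left _ _) (le_max_left _ _),
    hh.mono (le_max_right _ _) (le_max_right _ _)⟩

theorem BLx.add {g h : S → ℝ} {a L b M : ℝ} (hg : BLx g a L) (hh : BLx h b M) :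
    BLx (g + h) (a + b) (L + M) := by
  refine ⟨fun u => (abs_add_le _ _).trans (add_le_add (hg.1 u) (hh.1 u)), fun u v => ?_⟩
  have e : (g + h) u - (g + h) v = (g u - g v) + (h u - h v) := by
    simp only [Pi.add_apply]; ring
  rw [e, add_mul]
  exact (abs_add_le _ _).trans (add_le_add (hg.2 u v) (hh.2 u v))

theorem BLx.neg {g : S → ℝ} {a L : ℝ} (hg : BLx g a L) : BLx (-g) a L := by
  refine ⟨fun u => by rw [Pi.neg_apply, abs_neg]; exact hg.1 u, fun u v => ?_⟩
  have e : (-g) u - (-g) v = -(g u - g v) := by simp only [Pi.neg_apply]; ring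
  rw [e, abs_neg]
  exact hg.2 u v

theorem IsBL.add {g h : S → ℝ} (hg : IsBL g) (hh : IsBL h) : IsBL (g + h) := by
  obtain ⟨a, L, hg⟩ := hg
  obtain ⟨b, M, hh⟩ := hh
  exact ⟨_, _, hg.add hh⟩

theorem IsBL.neg {g : S → ℝ} (hg : IsBL g) : IsBL (-g) := by
  obtain ⟨a, L, hg⟩ := hg
  exact ⟨_, _, hg.neg⟩

theorem IsBL.zero : IsBL (0 : S → ℝ) := ⟨0, 0, fun u => by simp, fun u v => by simp⟩

theorem IsBL.sum {ι : Type} (s : Finset ι) {f : ι → S → ℝ} (hf : ∀ i, IsBL (f i)) :
    IsBL (∑ i ∈ s, f i) := by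
  classical
  induction s using Finset.induction_on with
  | empty => simpa using IsBL.zero
  | insert i s hi ih => rw [Finset.sum_insert hi]; exact (hf i).add ih

/-- a functional which is additive on bounded Lipschitz functions -/
structure Nu (ν : (S → ℝ) → ℝ) : Prop where
  add : ∀ g h : S → ℝ, IsBL g → IsBL h → ν (g + h) = ν g + ν h

variable {ν : (S → ℝ) → ℝ}

theorem Nu.zero (hν : Nu ν) : ν 0 = 0 := by
  have := hν.add 0 0 IsBL.zero IsBL.zero
  rw [add_zero] at this
  linarith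

theorem Nu.neg (hν : Nu ν) {g : S → ℝ} (hg : IsBL g) : ν (-g) = -ν g := by
  have := hν.add g (-g) hg hg.neg
  rw [add_neg_cancel, hν.zero] at this
  linarith

theorem Nu.sum (hν : Nu ν) {ι : Type} (s : Finset ι) {f : ι → S → ℝ} (hf : ∀ i, IsBL (f i)) :
    ν (∑ i ∈ s, f i) = ∑ i ∈ s, ν (f i) := by
  classical
  induction s using Finset.induction_on with
  | empty => simpa using hν.zero
  | insert i s hi ih =>
    rw [Finset.sum_insert hi, Finset.sum_insert hi, hν.add _ _ (hf i) (IsBL.sum s hf), ih]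

end

theorem psi_sum {S : Type} {ψ : Set ℕ → S → ℝ}
    (hadd : ∀ A B, Disjoint A B → ∀ u, ψ (A ∪ B) u = ψ A u + ψ B u) {K : Type} [Fintype K]
    (c : ℕ → K) (u : S) : ∑ j, ψ {n | c n = j} u = ψ univ u := by
  classical
  have h0 : ψ ∅ u = 0 := by
    have := hadd ∅ ∅ (disjoint_bot_left) u
    rw [Set.union_empty] at this
    linarith
  have key : ∀ s : Finset K, ∑ j ∈ s, ψ {n | c n = j} u = ψ {n | c n ∈ s} u := by
    intro s
    induction s using Finset.induction_on with
    | empty => simp [h0]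
    | insert i s hi ih =>
      rw [Finset.sum_insert hi, ih, ← hadd]
      · congr 1
        ext n
        simp
      · rw [Set.disjoint_left]
        intro n hn hn'
        apply hi
        rw [← show c n = i from hn]
        exact hn'
  rw [key]
  congr 1
  ext n
  simp

variable {S : Type} [MetricSpace S]

/-- the decomposition -/
theorem dec (hP : S_PERM) (hR : S_REG) (act : Equiv.Perm ℕ → S → S)
    (hact : ∀ π, Isometry (act π)) (hsur : ∀ π, Function.Surjective (act π))
    (ψ : Set ℕ → S → ℝ) (H : ℝ) (hψ : ∀ A u, 0 ≤ ψ A u ∧ ψ A u ≤ 1)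
    (hadd : ∀ A B, Disjoint A B → ∀ u, ψ (A ∪ B) u = ψ A u + ψ B u)
    (hH : ∀ A u v, |ψ A u - ψ A v| ^ 2 ≤ H * dist u v)
    (hequ : ∀ (π : Equiv.Perm ℕ) A u, ψ A (act π u) = ψ (π ⁻¹' A) u)
    (ν : (S → ℝ) → ℝ) (hν : Nu ν)
    (hinv : ∀ π g, IsBL g → ν (g ∘ act π) = ν g) (k : ℕ) :
    ∃ (D : ℝ) (N : ℕ), 0 ≤ D ∧ ∀ g a L t, Adm act ψ k g a L → 0 < t → t ≤ 1 →
    ∃ h : Fin N → S → ℝ, (∀ i, Adm act ψ (3 * k) (h i) (D * t * a) (D * (t * L + a / t))) ∧
      |ν g| ≤ 2 * ∑ i, |ν (h i)| := by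
  classical
  refine ⟨(k + 3) * (|H| + 1), Fintype.card (Option (Fin k × Bool)), by positivity, ?_⟩
  rintro g a L t ⟨ha, hL, hg, hsupp, K, _, c, hcard, hc, hcinv⟩ ht0 ht1
  obtain ⟨φ, hφ01, hφψ, hφL, hφe⟩ := hR S act hact hsur ψ H hψ hH hequ t ht0
  obtain ⟨r, hr⟩ := exists_split c hc
  have hgBL : IsBL g := ⟨a, L, hg⟩
  -- products with `φ A`
  have hφg : ∀ A, IsBL fun u => φ A u * g u := fun A =>
    ⟨_, _, hg.mul (e := φ A) (b := 1) (M := 1 / t) zero_le_one
      (fun u _ => by rw [abs_of_nonneg (hφ01 A u).1]; exact (hφ01 A u).2)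
      (fun u v => (hφL A u v).trans (by rw [div_mul_eq_mul_div, one_mul]))⟩
  -- same value
  have same : ∀ (j : K) {A A' : Set ℕ}, A ⊆ {n | c n = j} → A' ⊆ {n | c n = j} →
      A.Infinite → A'.Infinite → ({n | c n = j} \ A).Infinite → ({n | c n = j} \ A').Infinite →
      ν (fun u => φ A u * g u) = ν (fun u => φ A' u * g u) := by
    intro j A A' h1 h2 h3 h4 h5 h6
    obtain ⟨π, hπ, hπA⟩ := exists_perm hP c j h1 h2 h3 h4 h5 h6
    rw [← hinv π _ (hφg A)]
    congr 1
    funext u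
    change φ A (act π u) * g (act π u) = φ A' u * g u
    rw [hφe, hπA, show g (act π u) = g u from congrFun (hcinv π hπ) u]
  set A : K → Set ℕ := fun j => {n | c n = j ∧ r n = 0} with hAdef
  set B : K → Set ℕ := fun j => {n | c n = j ∧ r n = 1} with hBdef
  set R : K → Set ℕ := fun j => {n | c n = j ∧ r n = 2} with hRdef
  set P : K → Set ℕ := fun j => {n | c n = j} with hPdef
  have h01 : (0 : Fin 3) ≠ 1 := by decide
  have h02 : (0 : Fin 3) ≠ 2 := by decide
  have h12 : (1 : Fin 3) ≠ 2 := by decide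
  have hcases : ∀ x : Fin 3, x = 0 ∨ x = 1 ∨ x = 2 := by decide
  have hAB : ∀ j, Disjoint (A j) (B j) := fun j => by
    rw [Set.disjoint_left]; rintro n ⟨_, h⟩ ⟨_, h'⟩; exact h01 (h.symm.trans h')
  have hABR : ∀ j, Disjoint (A j) (B j ∪ R j) := fun j => by
    rw [Set.disjoint_left]
    rintro n ⟨_, h⟩ (⟨_, h'⟩ | ⟨_, h'⟩)
    · exact h01 (h.symm.trans h')
    · exact h02 (h.symm.trans h')
  have hPun : ∀ j, A j ∪ (B j ∪ R j) = P j := by
    intro j
    ext n
    constructor
    · rintro (h | h | h) <;> exact h.1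
    · intro h
      rcases hcases (r n) with h' | h' | h'
      · exact Or.inl ⟨h, h'⟩
      · exact Or.inr (Or.inl ⟨h, h'⟩)
      · exact Or.inr (Or.inr ⟨h, h'⟩)
  -- infinite sets
  have iA : ∀ j, (A j).Infinite := fun j => hr j 0
  have iB : ∀ j, (B j).Infinite := fun j => hr j 1
  have iR : ∀ j, (R j).Infinite := fun j => hr j 2
  have cA : ∀ j, (P j \ A j).Infinite := fun j => (iB j).mono (by
    rintro n ⟨h, h'⟩; exact ⟨h, fun h2 => h01 (h2.2.symm.trans h')⟩)
  have cB : ∀ j, (P j \ B j).Infinite := fun j => (iA j).mono (by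
    rintro n ⟨h, h'⟩; exact ⟨h, fun h2 => h01 (h'.symm.trans h2.2)⟩)
  have cAB : ∀ j, (P j \ (A j ∪ B j)).Infinite := fun j => (iR j).mono (by
    rintro n ⟨h, h'⟩
    refine ⟨h, ?_⟩
    rintro (h2 | h2)
    · exact h02 (h2.2.symm.trans h')
    · exact h12 (h2.2.symm.trans h'))
  have cBR : ∀ j, (P j \ (B j ∪ R j)).Infinite := fun j => (iA j).mono (by
    rintro n ⟨h, h'⟩
    refine ⟨h, ?_⟩
    rintro (h2 | h2)
    · exact h01 (h'.symm.trans h2.2)
    · exact h02 (h'.symm.trans h2.2))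
  have sA : ∀ j, A j ⊆ P j := fun j n h => h.1
  have sB : ∀ j, B j ⊆ P j := fun j n h => h.1
  have sR : ∀ j, R j ⊆ P j := fun j n h => h.1
  -- the pieces
  set dd : Set ℕ → Set ℕ → S → ℝ := fun X Y u => φ (X ∪ Y) u - φ X u - φ Y u with hdd
  set e0 : S → ℝ := fun u => 1 - ∑ j, φ (P j) u with he0
  set D : ℝ := (k + 3) * (|H| + 1) with hD
  have hk0 : (0 : ℝ) ≤ k := Nat.cast_nonneg k
  have hH0 := abs_nonneg H
  have bound : ∀ {m : ℝ} {e : S → ℝ}, 0 ≤ m → m ≤ k + 3 →
      (∀ u, g u ≠ 0 → |e u| ≤ m * (|H| * t)) → (∀ u v, |e u - e v| ≤ (m / t) * dist u v) →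
      BLx (fun u => e u * g u) (D * t * a) (D * (t * L + a / t)) := by
    intro m e hm0 hm h1 h2
    refine (hg.mul (by positivity) h1 h2).mono ?_ ?_
    · have : m * (|H| * t) ≤ D * t := by
        rw [hD]
        have : m * |H| ≤ (k + 3) * (|H| + 1) := mul_le_mul hm (by linarith) hH0 (by positivity)
        nlinarith
      exact mul_le_mul_of_nonneg_right this ha
    · have e1 : m * (|H| * t) * L ≤ D * (t * L) := by
        have : m * |H| ≤ D := mul_le_mul hm (by linarith) hH0 (by positivity)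
        have h3 : 0 ≤ t * L := by positivity
        nlinarith
      have e2 : m / t * a ≤ D * (a / t) := by
        have : m ≤ D := by
          rw [hD]
          nlinarith
        have h3 : 0 ≤ a / t := by positivity
        calc m / t * a = m * (a / t) := by ring
          _ ≤ _ := mul_le_mul_of_nonneg_right this h3
      linarith [mul_add D (t * L) (a / t)]
  have hddb : ∀ X Y, Disjoint X Y →
      BLx (fun u => dd X Y u * g u) (D * t * a) (D * (t * L + a / t)) := by
    intro X Y hXY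
    refine bound (m := 3) (by norm_num) (by linarith) (fun u _ => ?_) (fun u v => ?_)
    · have h1 := abs_le.1 (hφψ (X ∪ Y) u)
      have h2 := abs_le.1 (hφψ X u)
      have h3 := abs_le.1 (hφψ Y u)
      have h4 := hadd X Y hXY u
      change |φ (X ∪ Y) u - φ X u - φ Y u| ≤ _
      rw [abs_le]
      constructor <;> linarith [h1.1, h1.2, h2.1, h2.2, h3.1, h3.2]
    · have h1 := abs_le.1 (hφL (X ∪ Y) u v)
      have h2 := abs_le.1 (hφL X u v)
      have h3 := abs_le.1 (hφL Y u v)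
      change |(φ (X ∪ Y) u - φ X u - φ Y u) - (φ (X ∪ Y) v - φ X v - φ Y v)| ≤ _
      have e3 : 3 / t * dist u v = 3 * (dist u v / t) := by ring
      rw [e3, abs_le]
      constructor <;> linarith [h1.1, h1.2, h2.1, h2.2, h3.1, h3.2]
  have hKk : (Fintype.card K : ℝ) = k := by rw [hcard]
  have he0b : BLx (fun u => e0 u * g u) (D * t * a) (D * (t * L + a / t)) := by
    refine bound (m := k) hk0 (by linarith) (fun u hu => ?_) (fun u v => ?_)
    · have h1 : e0 u = ∑ j, (ψ (P j) u - φ (P j) u) := by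
        rw [Finset.sum_sub_distrib, psi_sum hadd c u, hsupp u hu]
      rw [h1, ← hKk]
      refine (Finset.abs_sum_le_sum_abs _ _).trans ?_
      refine (Finset.sum_le_sum fun j _ => (by rw [abs_sub_comm]; exact hφψ (P j) u :
        |ψ (P j) u - φ (P j) u| ≤ |H| * t)).trans ?_
      rw [Finset.sum_const, Finset.card_univ, nsmul_eq_mul]
    · have h1 : e0 u - e0 v = ∑ j, (φ (P j) v - φ (P j) u) := by
        rw [Finset.sum_sub_distrib, he0]; ring
      rw [h1, ← hKk]
      refine (Finset.abs_sum_le_sum_abs _ _).trans ?_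
      refine (Finset.sum_le_sum fun j _ => (by rw [abs_sub_comm]; exact hφL (P j) u v :
        |φ (P j) v - φ (P j) u| ≤ dist u v / t)).trans ?_
      rw [Finset.sum_const, Finset.card_univ, nsmul_eq_mul]
      apply le_of_eq; ring
  -- values
  have v1 : ∀ X Y, Disjoint X Y → ν (fun u => φ (X ∪ Y) u * g u) =
      ν (fun u => dd X Y u * g u) + ν (fun u => φ X u * g u) + ν (fun u => φ Y u * g u) := by
    intro X Y hXY
    have e : (fun u => φ (X ∪ Y) u * g u) = ((fun u => dd X Y u * g u) + fun u => φ X u * g u) +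
        fun u => φ Y u * g u := by
      funext u
      simp only [Pi.add_apply, hdd]
      ring
    rw [e, hν.add _ _ (IsBL.add ⟨_, _, hddb X Y hXY⟩ (hφg X)) (hφg Y),
      hν.add _ _ ⟨_, _, hddb X Y hXY⟩ (hφg X)]
  have vP : ∀ j, ν (fun u => φ (P j) u * g u) =
      ν (fun u => dd (A j) (B j ∪ R j) u * g u) - 2 * ν (fun u => dd (A j) (B j) u * g u) := by
    intro j
    have q1 := v1 (A j) (B j) (hAB j)
    have q2 := v1 (A j) (B j ∪ R j) (hABR j)
    rw [hPun] at q2
    have q3 := same j (sA j) (sB j) (iA j) (iB j) (cA j) (cB j)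
    have q4 := same j (sA j) (Set.union_subset (sA j) (sB j)) (iA j)
      ((iA j).mono Set.subset_union_left) (cA j) (cAB j)
    have q5 := same j (sA j) (Set.union_subset (sB j) (sR j)) (iA j)
      ((iB j).mono Set.subset_union_left) (cA j) (cBR j)
    linarith
  have vg : ν g = ν (fun u => e0 u * g u) + ∑ j, ν (fun u => φ (P j) u * g u) := by
    rw [← hν.sum Finset.univ (fun j => hφg (P j)), ← hν.add _ _ ⟨_, _, he0b⟩
      (IsBL.sum _ fun j => hφg (P j))]
    congr 1
    funext u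
    simp only [Pi.add_apply, Finset.sum_apply, he0, ← Finset.sum_mul]
    ring
  -- the family
  have eK : Fintype.card K = Fintype.card (Fin k) := by rw [hcard, Fintype.card_fin]
  let eq1 : Fin k ≃ K := (Fintype.equivOfCardEq eK).symm
  let f : Option (Fin k × Bool) → S → ℝ := fun o => o.elim (fun u => e0 u * g u)
    fun p => if p.2 then (fun u => dd (A (eq1 p.1)) (B (eq1 p.1) ∪ R (eq1 p.1)) u * g u)
      else (fun u => dd (A (eq1 p.1)) (B (eq1 p.1)) u * g u)
  have hf : ∀ o, Adm act ψ (3 * k) (f o) (D * t * a) (D * (t * L + a / t)) := by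
    intro o
    have hD0 : 0 ≤ D := by positivity
    refine ⟨by positivity, by positivity, ?_, ?_, Fin 3 × K, inferInstance, fun n => (r n, c n), ?_,
      ?_, ?_⟩
    · rcases o with _ | ⟨i, b⟩
      · exact he0b
      · cases b
        · exact hddb _ _ (hAB _)
        · exact hddb _ _ (hABR _)
    · intro u hu
      apply hsupp u
      intro h0
      apply hu
      rcases o with _ | ⟨i, b⟩
      · change e0 u * g u = 0
        rw [h0, mul_zero]
      · cases b
        · change dd _ _ u * g u = 0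
          rw [h0, mul_zero]
        · change dd _ _ u * g u = 0
          rw [h0, mul_zero]
    · rw [Fintype.card_prod, Fintype.card_fin, hcard]
    · rintro ⟨i, j⟩
      refine (hr j i).mono ?_
      rintro n ⟨h, h'⟩
      exact Prod.ext h' h
    · intro π hπ
      have hcπ : c ∘ π = c := funext fun n => congrArg Prod.snd (congrFun hπ n)
      have hrπ : ∀ n, r (π n) = r n := fun n => congrArg Prod.fst (congrFun hπ n)
      have hcπ' : ∀ n, c (π n) = c n := fun n => congrFun hcπ n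
      have hgπ := hcinv π hcπ
      have hgu : ∀ u, g (act π u) = g u := fun u => congrFun hgπ u
      have pA : ∀ j, π ⁻¹' (A j) = A j := fun j => by
        ext n; simp only [hAdef, Set.mem_preimage, Set.mem_ofPred_eq, hcπ', hrπ]
      have pB : ∀ j, π ⁻¹' (B j) = B j := fun j => by
        ext n; simp only [hBdef, Set.mem_preimage, Set.mem_ofPred_eq, hcπ', hrπ]
      have pR : ∀ j, π ⁻¹' (R j) = R j := fun j => by
        ext n; simp only [hRdef, Set.mem_preimage, Set.mem_ofPred_eq, hcπ', hrπ]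
      have pP : ∀ j, π ⁻¹' (P j) = P j := fun j => by
        ext n; simp only [hPdef, Set.mem_preimage, Set.mem_ofPred_eq, hcπ']
      funext u
      rcases o with _ | ⟨i, b⟩
      · change e0 (act π u) * g (act π u) = e0 u * g u
        simp only [he0, hφe, pP, hgu]
      · cases b
        · change dd _ _ (act π u) * g (act π u) = dd _ _ u * g u
          simp only [hdd, hφe, Set.preimage_union, pA, pB, hgu]
        · change dd _ _ (act π u) * g (act π u) = dd _ _ u * g u
          simp only [hdd, hφe, Set.preimage_union, pA, pB, pR, hgu]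
  refine ⟨fun i => f ((Fintype.equivFin _).symm i), fun i => hf _, ?_⟩
  rw [(Fintype.equivFin (Option (Fin k × Bool))).symm.sum_comp (fun o => |ν (f o)|),
    Fintype.sum_option, Fintype.sum_prod_type, vg, ← eq1.sum_comp]
  simp only [Fintype.sum_bool, vP]
  have t1 : |ν (fun u => e0 u * g u) + ∑ i, (ν (fun u => dd (A (eq1 i)) (B (eq1 i) ∪ R (eq1 i)) u * g u)
      - 2 * ν (fun u => dd (A (eq1 i)) (B (eq1 i)) u * g u))| ≤ |ν (fun u => e0 u * g u)| +
      ∑ i, (|ν (fun u => dd (A (eq1 i)) (B (eq1 i) ∪ R (eq1 i)) u * g u)| +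
        2 * |ν (fun u => dd (A (eq1 i)) (B (eq1 i)) u * g u)|) := by
    refine (abs_add_le _ _).trans (add_le_add le_rfl ?_)
    refine (Finset.abs_sum_le_sum_abs _ _).trans (Finset.sum_le_sum fun i _ => ?_)
    refine (abs_sub _ _).trans ?_
    rw [abs_mul, abs_two]
  refine t1.trans ?_
  rw [mul_add, Finset.mul_sum]
  refine add_le_add ?_ (Finset.sum_le_sum fun i _ => ?_)
  · change |ν (fun u => e0 u * g u)| ≤ 2 * |ν (fun u => e0 u * g u)|
    linarith [abs_nonneg (ν (fun u => e0 u * g u))]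
  · change |ν (fun u => dd (A (eq1 i)) (B (eq1 i) ∪ R (eq1 i)) u * g u)| +
        2 * |ν (fun u => dd (A (eq1 i)) (B (eq1 i)) u * g u)| ≤
      2 * (|ν (fun u => dd (A (eq1 i)) (B (eq1 i) ∪ R (eq1 i)) u * g u)| +
        |ν (fun u => dd (A (eq1 i)) (B (eq1 i)) u * g u)|)
    linarith [abs_nonneg (ν (fun u => dd (A (eq1 i)) (B (eq1 i) ∪ R (eq1 i)) u * g u))]

theorem abs_of (hP : S_PERM) (hR : S_REG) (hI : S_ITER) : Pool.Agent.X171.EL.S_ABS := by
  intro S _ act hact hsur ψ H hψ hadd hH hequ ν C hνadd hνb hνinv g a L hg hginv hsupp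
  have hconv : ∀ {g : S → ℝ} {a L : ℝ}, Pool.Agent.X171.EL.BL g a L ↔ BLx g a L := Iff.rfl
  have hν : Nu ν := ⟨fun g h hg hh => by
    obtain ⟨a, L, h1, h2⟩ := hg.pair hh
    exact hνadd g h a L h1 h2⟩
  have hinv : ∀ π g, IsBL g → ν (g ∘ act π) = ν g := fun π g ⟨a, L, h⟩ => hνinv π g a L h
  refine hI (S → ℝ) (Adm act ψ) ν C ?_
    (dec hP hR act hact hsur ψ H hψ hadd hH hequ ν hν hinv) 1 g |a| |L| ?_
  · rintro k g a L ⟨h1, h2, h3, -⟩
    exact ⟨h1, h2, hνb g a L h3⟩
  · refine ⟨abs_nonneg _, abs_nonneg _, BLx.mono hg (le_abs_self _) (le_abs_self _), hsupp,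
      Unit, inferInstance, fun _ => (), by simp, fun j => ?_, fun π _ => hginv π⟩
    have : {n : ℕ | (fun _ => () : ℕ → Unit) n = j} = Set.univ := by
      ext n; simp
    rw [this]
    exact Set.infinite_univ

end Pool.Agent.X118.EL
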