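import Mathlib

/-! Sub-parts of EL_ABS (helper118). -/

set_option autoImplicit false

namespace Pool.Agent.X118.EL

/-- PERM: two colourings with equinumerous fibres differ by a permutation.
(`Equiv.sigmaFiberEquiv`, `Equiv.sigmaCongrRight`.) -/
def S_PERM : Prop := ∀ (K : Type) (d d' : ℕ → K),
  (∀ κ, Nonempty ({n // d n = κ} ≃ {n // d' n = κ})) → ∃ π : Equiv.Perm ℕ, d ∘ π = d'

/-- REG: `φ A u = inf_{u'} (ψ A u' + dist u u' / t)`. `φ ≤ ψ`; `ψ A u - ψ A u' ≤ dist u u' / t + |H| t`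
as `(ψ A u - ψ A u')^2 ≤ |H| dist u u'` (AM-GM). -/
def S_REG : Prop := ∀ (S : Type) [MetricSpace S] (act : Equiv.Perm ℕ → S → S),
  (∀ π, Isometry (act π)) → (∀ π, Function.Surjective (act π)) →
  ∀ (ψ : Set ℕ → S → ℝ) (H : ℝ), (∀ A u, 0 ≤ ψ A u ∧ ψ A u ≤ 1) →
  (∀ A u v, |ψ A u - ψ A v| ^ 2 ≤ H * dist u v) →
  (∀ (π : Equiv.Perm ℕ) A u, ψ A (act π u) = ψ (π ⁻¹' A) u) →
  ∀ t : ℝ, 0 < t → ∃ φ : Set ℕ → S → ℝ, (∀ A u, 0 ≤ φ A u ∧ φ A u ≤ 1) ∧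
    (∀ A u, |φ A u - ψ A u| ≤ |H| * t) ∧ (∀ A u v, |φ A u - φ A v| ≤ dist u v / t) ∧
    ∀ (π : Equiv.Perm ℕ) A u, φ A (act π u) = φ (π ⁻¹' A) u

/-- ITER: for every `k` there are `C₁, C₂, C₃` with `|ν g| ≤ C₁ (t L + a/t)`, then
`|ν g| ≤ C₂ (t² L + a)`, then `|ν g| ≤ C₃ (t³ L + t a)` for all admissible `g` and `t` in `(0,1]`
(apply the decomposition and the bound before it for `3 * k` to the `h i`, with the same `t`);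
let `t → 0`. -/
def S_ITER : Prop := ∀ (F : Type) (Adm : ℕ → F → ℝ → ℝ → Prop) (ν : F → ℝ) (C : ℝ),
  (∀ k g a L, Adm k g a L → 0 ≤ a ∧ 0 ≤ L ∧ |ν g| ≤ C * (a + L)) →
  (∀ k, ∃ (D : ℝ) (N : ℕ), 0 ≤ D ∧ ∀ g a L t, Adm k g a L → 0 < t → t ≤ 1 →
    ∃ h : Fin N → F, (∀ i, Adm (3 * k) (h i) (D * t * a) (D * (t * L + a / t))) ∧
      |ν g| ≤ 2 * ∑ i, |ν (h i)|) →
  ∀ k g a L, Adm k g a L → ν g = 0

end Pool.Agent.X118.EL
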